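import Pool.Agent.N232.SPC.VAR
import Pool.Agent.N232.SPC.SEP
import Pool.Agent.N232.SPC.STEP
import Pool.Agent.N92.SPC.FAM
import Pool.Agent.N862.SPC.CT
import Pool.Agent.N755.SPC.CNT
import Pool.Agent.N40.SPC.TRIG
import Pool.Agent.N690.SPC.DETG
import Pool.Agent.N437.SPC.NC
import Pool.Agent.N747.SPC.CORQ
import Pool.Agent.N31.SPC.Lowg

/-!
# Almost all sets with small doubling in torsion-free groups are nearly contained in a progression

`Γ` is a torsion-free abelian group, `X` an arbitrary finite subset of `Γ` with `log |X| ≤ n ^ c`,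
and the sets `A` are the subsets of `X` with `n` elements and `|A + A| ≤ K |A|`, where
`1 ≤ K ≤ n ^ (1 - δ)`.

(1) Let `1 ≤ Q ≤ K`. For all but `(C K / Q) ^ n` of the sets `A` there is a proper progression `P`
of rank at most `C log (2 Q)` with `|P| ≤ (100 / 97) |A + A|` and
`|A ∩ P| ≥ (2 Q) ^ (- C (1 + log (1 + log (2 Q)))) |A|`.

(2) For all but `(C K ^ (1 - 1 / (1 + log (1 + log (2 K))))) ^ n` of the sets `A` there is a proper
progression `P` of rank `O(log K / log log K)` with `|P| ≤ (100 / 97) |A + A|` and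
`|A ∩ P| ≥ C ^ (-1) K ^ (-C) |A|`.

(3) For every `ε` all but `(ε K) ^ n` of the sets `A` have all but `n ^ (1 - c)` elements in a
progression of bounded rank and size `O_ε(|A + A|)`.

(4) If `P ⊆ X`, `|P| ≥ n` and `|P + P| ≤ K n` then the number of all the sets `A` is at least
`(|P| / n) ^ n`. So if `X` contains a progression `P` with `|P + P| ≤ K n ≤ R |P|`, then the
proportion of the exceptional sets is at most `(C R / Q) ^ n`,
`(C R / K ^ (1 / (1 + log (1 + log (2 K))))) ^ n`, `(ε R) ^ n`, respectively.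

Project SPC, part 3: helpers 31, 40, 92, 232, 400, 437, 687, 690, 747, 755, 862, 953.
-/

set_option autoImplicit false

open Finset
open scoped Pointwise

namespace Pool.Agent.Results.MP_86f7a7_co.AlmostAllSets

/-- The progression `{a + m_1 v_1 + ⋯ + m_d v_d : 0 ≤ m_i < N_i}` of rank `d`. -/
def prog {Γ : Type} [AddCommGroup Γ] {d : ℕ} (a : Γ) (v : Fin d → Γ) (N : Fin d → ℕ) : Set Γ :=
  {g | ∃ m : Fin d → ℕ, (∀ i, m i < N i) ∧ g = a + ∑ i, m i • v i}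

/-- The progression is proper. -/
def Proper {Γ : Type} [AddCommGroup Γ] {d : ℕ} (v : Fin d → Γ) (N : Fin d → ℕ) : Prop :=
  ∀ m m' : Fin d → ℕ, (∀ i, m i < N i) → (∀ i, m' i < N i) →
    ∑ i, m i • v i = ∑ i, m' i • v i → m = m'

/-- There is a proper progression `P` of rank at most `D` with `|P| ≤ (100 / 97) |A + A|` and
`|A ∩ P| ≥ |A| / M`. -/
def Dense {Γ : Type} [AddCommGroup Γ] [DecidableEq Γ] (D M : ℝ) (A : Finset Γ) : Prop :=
  ∃ (d : ℕ) (a : Γ) (v : Fin d → Γ) (N : Fin d → ℕ) (A' : Finset Γ), (d : ℝ) ≤ D ∧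
    (∀ i, 1 ≤ N i) ∧ Proper v N ∧ 97 * ∏ i, N i ≤ 100 * (A + A).card ∧
    A' ⊆ A ∧ (A' : Set Γ) ⊆ prog a v N ∧ (A.card : ℝ) ≤ M * A'.card

/-- There is a progression `P` of rank at most `D` and size at most `D |A + A|` which contains all
elements of `A` with at most `V` exceptions. -/
def Nearly {Γ : Type} [AddCommGroup Γ] [DecidableEq Γ] (D V : ℝ) (A : Finset Γ) : Prop :=
  ∃ (d : ℕ) (a : Γ) (v : Fin d → Γ) (N : Fin d → ℕ) (A' : Finset Γ), (d : ℝ) ≤ D ∧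
    (∀ i, 1 ≤ N i) ∧ ((∏ i, N i : ℕ) : ℝ) ≤ D * (A + A).card ∧
    A' ⊆ A ∧ (A' : Set Γ) ⊆ prog a v N ∧ ((A \ A').card : ℝ) ≤ V

open Pool.Agent.N437.SPC

theorem dense_mono {Γ : Type} [AddCommGroup Γ] [DecidableEq Γ] {D D' M M' : ℝ} (hD : D ≤ D')
    (hM : M ≤ M') {A : Finset Γ} (h : Dense D M A) : Dense D' M' A := by
  obtain ⟨d, a, v, N, A', h1, h2, h3, h4, h5, h6, h7⟩ := h
  exact ⟨d, a, v, N, A', h1.trans hD, h2, h3, h4, h5, h6,
    h7.trans (mul_le_mul_of_nonneg_right hM (Nat.cast_nonneg _))⟩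

theorem hCT : S_CT :=
  Pool.Agent.N862.SPC.t_CT (Pool.Agent.N92.SPC.t_FAM (Pool.Agent.N232.SPC.t_STEP
    (Pool.Agent.N232.SPC.t_SEP Pool.Agent.N232.SPC.t_VAR)))

theorem hSTR : S_STR := t_STR hCT Pool.Agent.N755.SPC.t_CNT Pool.Agent.N40.SPC.t_TRIG

/-- A set with doubling `2 Q ^ 3` is covered by few translates of a proper progression. -/
theorem nc {Γ : Type} [AddCommGroup Γ] [DecidableEq Γ]
    (htf : ∀ (k : ℕ) (x : Γ), k ≠ 0 → k • x = 0 → x = 0) (G : Finset Γ) (Q : ℝ) (hQ : 1 ≤ Q)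
    (hG : G.Nonempty) (hGG : ((G + G).card : ℝ) ≤ 2 * Q ^ 3 * G.card) :
    ∃ (d : ℕ) (v : Fin d → Γ) (N : Fin d → ℕ) (T : Finset Γ),
      (d : ℝ) ≤ 160000 * Real.log (2 * Q) ∧ (∀ i, 1 ≤ N i) ∧ Proper v N ∧
      ∏ i, N i ≤ G.card ∧ 4 * (T.card : ℝ) ≤ mq 160000 Q ∧
      ∀ a ∈ G, ∃ t ∈ T, ∃ m : Fin d → ℕ, (∀ i, m i < N i) ∧ a = t + ∑ i, m i • v i := by
  obtain ⟨k, v, N, T, hk, hN, hp, hv, hT, hc⟩ := H112.near_pfr_gap' htf hG hGG
  have h := Pool.Agent.N690.SPC.const_bound (K := 1 / 2) (Q := Q) (T0 := T.card) hQ hk hT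
  refine ⟨k, v, N, T, h.1, hN, hp, hv, ?_, hc⟩
  have h2 := h.2
  rw [mb_eq] at h2
  have h3 := mq_pos (C := 160000) hQ
  have h4 : (1 : ℝ) ≤ 9 ^ k := one_le_pow₀ (by norm_num)
  have h5 : (T.card : ℝ) ≤ T.card * 9 ^ k := le_mul_of_one_le_right (Nat.cast_nonneg _) h4
  nlinarith

/-- One of the translates contains many elements of `A`. -/
theorem dense_of {Γ : Type} [AddCommGroup Γ] [DecidableEq Γ]
    (htf : ∀ (k : ℕ) (x : Γ), k ≠ 0 → k • x = 0 → x = 0) (A G : Finset Γ) (n : ℕ) (Q : ℝ)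
    (hn : 1 ≤ n) (hA : A.card = n) (hQ : 1 ≤ Q) (hAG : 2 * ((A \ G).card : ℝ) ≤ n)
    (hG : 97 * G.card ≤ 100 * (A + A).card) (hGG : ((G + G).card : ℝ) ≤ 2 * Q ^ 3 * G.card) :
    Dense (160000 * Real.log (2 * Q)) (mq 160000 Q) A := by
  have hGA : n ≤ 2 * (A ∩ G).card := by
    have h4 : (A \ G).card + (A ∩ G).card = A.card := Finset.card_sdiff_add_card_inter A G
    have h5 : 2 * (A \ G).card ≤ n := by exact_mod_cast hAG
    omega
  have hAGne : (A ∩ G).Nonempty := card_pos.1 (by omega)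
  obtain ⟨d, v, N, T, hd, hN, hp, hv, hT, hc⟩ := nc htf G Q hQ (hAGne.mono inter_subset_right) hGG
  classical
  obtain ⟨t, ht, hpig⟩ := H112.cover_pigeonhole (T := T) hAGne
    (fun t a => ∃ m : Fin d → ℕ, (∀ i, m i < N i) ∧ a = t + ∑ i, m i • v i)
    (fun a ha => hc a (mem_inter.1 ha).2)
  refine ⟨d, t, v, N, (A ∩ G).filter (fun a => ∃ m : Fin d → ℕ, (∀ i, m i < N i) ∧
    a = t + ∑ i, m i • v i), hd, hN, hp, ?_, (filter_subset _ _).trans inter_subset_left, ?_, ?_⟩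
  · omega
  · intro a ha
    exact (mem_filter.1 (mem_coe.1 ha)).2
  · set A1 := (A ∩ G).filter (fun a => ∃ m : Fin d → ℕ, (∀ i, m i < N i) ∧
      a = t + ∑ i, m i • v i) with hA1
    have h1 : (n : ℝ) ≤ 2 * (T.card * A1.card) := by
      have : n ≤ 2 * (T.card * A1.card) := hGA.trans (Nat.mul_le_mul_left 2 hpig)
      exact_mod_cast this
    have h2 : 0 ≤ (A1.card : ℝ) := Nat.cast_nonneg _
    have h3 : 0 ≤ (T.card : ℝ) := Nat.cast_nonneg _
    rw [hA]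
    nlinarith [mul_le_mul_of_nonneg_right hT h2, mul_nonneg h3 h2]

/-- All translates lie in one progression. -/
theorem nearly_of {Γ : Type} [AddCommGroup Γ] [DecidableEq Γ]
    (htf : ∀ (k : ℕ) (x : Γ), k ≠ 0 → k • x = 0 → x = 0) (A G : Finset Γ) (Q D V : ℝ)
    (hG0 : G.Nonempty) (hQ : 1 ≤ Q) (hAG : ((A \ G).card : ℝ) ≤ V)
    (hG : 97 * G.card ≤ 100 * (A + A).card) (hGG : ((G + G).card : ℝ) ≤ 2 * Q ^ 3 * G.card)
    (hD1 : 160000 * Real.log (2 * Q) + mq 160000 Q ≤ D)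
    (hD2 : 2 * (2 : ℝ) ^ mq 160000 Q ≤ D) :
    Nearly D V A := by
  obtain ⟨k, v, N, T, hd, hN, hp, hv, hT, hc⟩ := nc htf G Q hQ hG0 hGG
  have hmq := mq_pos (C := 160000) hQ
  have hTq : (T.card : ℝ) ≤ mq 160000 Q := by
    have : (0 : ℝ) ≤ T.card := Nat.cast_nonneg _
    linarith
  -- the index set
  let ι := Fin k ⊕ Fin T.card
  let e : ι ≃ Fin (k + T.card) := finSumFinEquiv
  let f : Fin T.card ≃ T := T.equivFin.symm
  let w : ι → Γ := Sum.elim v (fun j => (f j : Γ))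
  let M : ι → ℕ := Sum.elim N (fun _ => 2)
  refine ⟨k + T.card, 0, fun i => w (e.symm i), fun i => M (e.symm i), A ∩ G, ?_, ?_, ?_,
    inter_subset_left, ?_, ?_⟩
  · push_cast
    linarith
  · intro i
    rcases h : e.symm i with j | j
    · simpa [M, h] using hN j
    · simp [M, h]
  · have h1 : ∏ i, M (e.symm i) = ∏ i, M i := Equiv.prod_comp e.symm M
    have h2 : ∏ i, M i = (∏ i, N i) * 2 ^ T.card := by
      rw [Fintype.prod_sum_type]
      simp [M]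
    rw [h1, h2]
    have h3 : ((∏ i, N i : ℕ) : ℝ) ≤ 2 * (A + A).card := by
      have h4 : ((∏ i, N i : ℕ) : ℝ) ≤ G.card := by exact_mod_cast hv
      have h5 : 97 * (G.card : ℝ) ≤ 100 * ((A + A).card : ℝ) := by exact_mod_cast hG
      have h6 : (0 : ℝ) ≤ (A + A).card := Nat.cast_nonneg _
      linarith
    have h4 : (2 : ℝ) ^ T.card ≤ 2 ^ mq 160000 Q := by
      rw [← Real.rpow_natCast]
      exact Real.rpow_le_rpow_of_exponent_le (by norm_num) hTq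
    have h5 : (0 : ℝ) ≤ (2 : ℝ) ^ mq 160000 Q := by positivity
    have h6 : (0 : ℝ) ≤ (A + A).card := Nat.cast_nonneg _
    calc (((∏ i, N i) * 2 ^ T.card : ℕ) : ℝ) = ((∏ i, N i : ℕ) : ℝ) * 2 ^ T.card := by push_cast; ring
      _ ≤ (2 * (A + A).card) * 2 ^ mq 160000 Q := by gcongr
      _ = (2 * 2 ^ mq 160000 Q) * (A + A).card := by ring
      _ ≤ D * (A + A).card := by gcongr
  · intro a ha
    obtain ⟨t, ht, m, hm, hat⟩ := hc a (mem_inter.1 (mem_coe.1 ha)).2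
    let m' : ι → ℕ := Sum.elim m (fun j => if (f j : Γ) = t then 1 else 0)
    refine ⟨fun i => m' (e.symm i), ?_, ?_⟩
    · intro i
      change m' (e.symm i) < M (e.symm i)
      rcases e.symm i with j | j
      · exact hm j
      · change (if (f j : Γ) = t then 1 else 0) < 2
        split_ifs <;> omega
    · have h1 : ∑ i, m' (e.symm i) • w (e.symm i) = ∑ i, m' i • w i :=
        Equiv.sum_comp e.symm (fun i => m' i • w i)
      rw [zero_add, h1, Fintype.sum_sum_type]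
      simp only [m', w, Sum.elim_inl, Sum.elim_inr]
      have h2 : ∑ j : Fin T.card, (if (f j : Γ) = t then 1 else 0) • (f j : Γ) = t := by
        have h3 : ∑ j : Fin T.card, (if (f j : Γ) = t then 1 else 0) • (f j : Γ) =
            ∑ x : T, (if (x : Γ) = t then 1 else 0) • (x : Γ) :=
          Equiv.sum_comp f (fun x : T => (if (x : Γ) = t then 1 else 0) • (x : Γ))
        rw [h3, Finset.sum_coe_sort T (fun x => (if x = t then 1 else 0) • x)]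
        rw [Finset.sum_eq_single t]
        · simp
        · intro b _ hb
          simp [hb]
        · intro h
          exact absurd ht h
      rw [h2, hat, add_comm]
  · rwa [sdiff_inter_self_left]

theorem result :
    -- (1)
    (∃ C : ℝ, 1 ≤ C ∧ ∀ δ : ℝ, 0 < δ → ∃ c : ℝ, 0 < c ∧ ∃ n₀ : ℕ,
      ∀ {Γ : Type} [AddCommGroup Γ] [DecidableEq Γ]
        (_ : ∀ (k : ℕ) (x : Γ), k ≠ 0 → k • x = 0 → x = 0) (X : Finset Γ) (n : ℕ) (K Q : ℝ),
        n₀ ≤ n → Real.log X.card ≤ (n : ℝ) ^ c → 1 ≤ Q → Q ≤ K → K ≤ (n : ℝ) ^ (1 - δ) →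
        ∃ E : Finset (Finset Γ), (E.card : ℝ) ≤ (C * K / Q) ^ n ∧
          ∀ A ⊆ X, A.card = n → ((A + A).card : ℝ) ≤ K * n → A ∉ E →
            Dense (C * Real.log (2 * Q))
              ((2 * Q) ^ (C * (1 + Real.log (1 + Real.log (2 * Q))))) A) ∧
    -- (2)
    (∃ C : ℝ, 1 ≤ C ∧ ∀ δ : ℝ, 0 < δ → ∃ c : ℝ, 0 < c ∧ ∃ n₀ : ℕ,
      ∀ {Γ : Type} [AddCommGroup Γ] [DecidableEq Γ]
        (_ : ∀ (k : ℕ) (x : Γ), k ≠ 0 → k • x = 0 → x = 0) (X : Finset Γ) (n : ℕ) (K : ℝ),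
        n₀ ≤ n → Real.log X.card ≤ (n : ℝ) ^ c → 1 ≤ K → K ≤ (n : ℝ) ^ (1 - δ) →
        ∃ E : Finset (Finset Γ),
          (E.card : ℝ) ≤ (C * K ^ (1 - 1 / (1 + Real.log (1 + Real.log (2 * K))))) ^ n ∧
          ∀ A ⊆ X, A.card = n → ((A + A).card : ℝ) ≤ K * n → A ∉ E →
            Dense (C * Real.log (2 * K) / (1 + Real.log (1 + Real.log (2 * K)))) (C * K ^ C) A) ∧
    -- (3)
    (∀ ε : ℝ, 0 < ε → ∃ D : ℝ, 1 ≤ D ∧ ∀ δ : ℝ, 0 < δ → ∃ c : ℝ, 0 < c ∧ ∃ n₀ : ℕ,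
      ∀ {Γ : Type} [AddCommGroup Γ] [DecidableEq Γ]
        (_ : ∀ (k : ℕ) (x : Γ), k ≠ 0 → k • x = 0 → x = 0) (X : Finset Γ) (n : ℕ) (K : ℝ),
        n₀ ≤ n → Real.log X.card ≤ (n : ℝ) ^ c → 1 ≤ K → K ≤ (n : ℝ) ^ (1 - δ) →
        ∃ E : Finset (Finset Γ), (E.card : ℝ) ≤ (ε * K) ^ n ∧
          ∀ A ⊆ X, A.card = n → ((A + A).card : ℝ) ≤ K * n → A ∉ E →
            Nearly D ((n : ℝ) ^ (1 - c)) A) ∧
    -- (4)
    (∀ {Γ : Type} [AddCommGroup Γ] [DecidableEq Γ] (X P : Finset Γ) (n : ℕ) (K : ℝ),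
      1 ≤ n → P ⊆ X → n ≤ P.card → ((P + P).card : ℝ) ≤ K * n →
        ((P.card : ℝ) / n) ^ n ≤
          ({A : Finset Γ | A ⊆ X ∧ A.card = n ∧ ((A + A).card : ℝ) ≤ K * n}.ncard : ℝ)) := by
  set C : ℝ := max 160000 (2 * Real.exp 1 ^ 2) with hCdef
  have hC6 : 160000 ≤ C := le_max_left _ _
  have hC : 1 ≤ C := by linarith
  have hexp : 2 * Real.exp 1 ^ 2 ≤ C := le_max_right _ _
  -- the family of exceptional sets
  have fam : ∀ δ : ℝ, 0 < δ → ∃ c : ℝ, 0 < c ∧ ∃ n₀ : ℕ,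
      ∀ {Γ : Type} [AddCommGroup Γ] [DecidableEq Γ] (X : Finset Γ) (n : ℕ) (K Q : ℝ),
        n₀ ≤ n → Real.log X.card ≤ (n : ℝ) ^ c → 1 ≤ Q → Q ≤ K → K ≤ (n : ℝ) ^ (1 - δ) →
        1 ≤ n ∧ 2 * (n : ℝ) ^ (1 - c) ≤ n ∧
        ∃ E : Finset (Finset Γ), (E.card : ℝ) ≤ (C * K / Q) ^ n ∧
          ∀ A ⊆ X, A.card = n → ((A + A).card : ℝ) ≤ K * n → A ∉ E →
            ∃ G ⊆ X, ((A \ G).card : ℝ) ≤ (n : ℝ) ^ (1 - c) ∧
              97 * G.card ≤ 100 * (A + A).card ∧ ((G + G).card : ℝ) ≤ 2 * Q ^ 3 * G.card := by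
    intro δ hδ
    obtain ⟨c, hc, n₀, h⟩ := hSTR δ hδ
    refine ⟨c, hc, n₀, ?_⟩
    intro Γ _ _ X n K Q hn hX hQ hQK hK
    obtain ⟨hn1, hnc, hcard⟩ := h X n K Q hn hX hQ hQK hK
    set S : Set (Finset Γ) := {A : Finset Γ | A ⊆ X ∧ A.card = n ∧
      ((A + A).card : ℝ) ≤ K * n ∧ ¬ Str X c Q A} with hS
    have hfin : S.Finite := by
      refine (X.powerset.finite_toSet).subset ?_
      rintro A ⟨hA, -⟩
      simpa using hA
    have hQ0 : (0 : ℝ) < Q := by linarith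
    have hK0 : (0 : ℝ) < K := by linarith
    refine ⟨hn1, hnc, hfin.toFinset, ?_, ?_⟩
    · rw [← Set.ncard_eq_toFinset_card S hfin]
      refine hcard.trans (pow_le_pow_left₀ (by positivity) ?_ n)
      gcongr
    · intro A hAX hAn hAA hAE
      have hstr : Str X c Q A := by
        by_contra hcon
        exact hAE (by simpa [hS] using ⟨hAX, hAn, hAA, hcon⟩)
      obtain ⟨G, hGX, hG1, hG2, hG3⟩ := hstr
      rw [hAn] at hG1
      exact ⟨G, hGX, hG1, hG2, hG3⟩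
  have fam1 : ∀ δ : ℝ, 0 < δ → ∃ c : ℝ, 0 < c ∧ ∃ n₀ : ℕ,
      ∀ {Γ : Type} [AddCommGroup Γ] [DecidableEq Γ]
        (_ : ∀ (k : ℕ) (x : Γ), k ≠ 0 → k • x = 0 → x = 0) (X : Finset Γ) (n : ℕ) (K Q : ℝ),
        n₀ ≤ n → Real.log X.card ≤ (n : ℝ) ^ c → 1 ≤ Q → Q ≤ K → K ≤ (n : ℝ) ^ (1 - δ) →
        ∃ E : Finset (Finset Γ), (E.card : ℝ) ≤ (C * K / Q) ^ n ∧
          ∀ A ⊆ X, A.card = n → ((A + A).card : ℝ) ≤ K * n → A ∉ E →
            Dense (C * Real.log (2 * Q)) (mq C Q) A := by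
    intro δ hδ
    obtain ⟨c, hc, n₀, h⟩ := fam δ hδ
    refine ⟨c, hc, n₀, ?_⟩
    intro Γ _ _ htf X n K Q hn hX hQ hQK hK
    obtain ⟨hn1, hnc, E, hE, h1⟩ := h X n K Q hn hX hQ hQK hK
    refine ⟨E, hE, ?_⟩
    intro A hAX hAn hAA hAE
    obtain ⟨G, hGX, hG1, hG2, hG3⟩ := h1 A hAX hAn hAA hAE
    have hl : 0 ≤ Real.log (2 * Q) := Real.log_nonneg (by linarith)
    exact dense_mono (mul_le_mul_of_nonneg_right hC6 hl)
      (mq_mono (by norm_num) hC6 hQ le_rfl)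
      (dense_of htf A G n Q hn1 hAn hQ (by linarith) hG2 hG3)
  refine ⟨⟨C, hC, fam1⟩, ?_, ?_, ?_⟩
  · obtain ⟨C', hC', hcor⟩ := Pool.Agent.N747.SPC.t_CORQ C hC
    refine ⟨C', hC', ?_⟩
    intro δ hδ
    obtain ⟨c, hc, n₀, h⟩ := fam1 δ hδ
    refine ⟨c, hc, n₀, ?_⟩
    intro Γ _ _ htf X n K hn hX hK1 hK
    obtain ⟨Q, hQ1, hQK, hd, hm, hb⟩ := hcor K hK1
    obtain ⟨E, hE, h1⟩ := h htf X n K Q hn hX hQ1 hQK hK
    refine ⟨E, hE.trans ?_, ?_⟩
    · apply pow_le_pow_left₀ _ hb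
      have : (0 : ℝ) < Q := by linarith
      have : (0 : ℝ) < K := by linarith
      positivity
    · intro A hAX hAn hAA hAE
      refine dense_mono hd ?_ (h1 A hAX hAn hAA hAE)
      refine le_trans ?_ hm
      rw [mb_eq]
      exact le_mul_of_one_le_left (mq_pos hQ1).le (one_le_pow₀ hK1)
  · intro ε hε
    set Q₀ : ℝ := max 1 (C / ε) with hQ₀
    have hQ₀1 : 1 ≤ Q₀ := le_max_left _ _
    have hlog0 : 0 ≤ Real.log (2 * Q₀) := Real.log_nonneg (by linarith)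
    have hM0 : 0 < mq 160000 Q₀ := mq_pos hQ₀1
    have h20 : (0 : ℝ) < 2 * (2 : ℝ) ^ mq 160000 Q₀ := by positivity
    set D : ℝ := 1 + (160000 * Real.log (2 * Q₀) + mq 160000 Q₀) +
      2 * (2 : ℝ) ^ mq 160000 Q₀ with hDdef
    have hD1 : 160000 * Real.log (2 * Q₀) + mq 160000 Q₀ ≤ D := by linarith
    have hD2 : 2 * (2 : ℝ) ^ mq 160000 Q₀ ≤ D := by linarith
    refine ⟨D, by linarith, ?_⟩
    intro δ hδ
    obtain ⟨c, hc, n₀, h⟩ := fam δ hδ
    refine ⟨c, hc, max n₀ 1, ?_⟩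
    intro Γ _ _ htf X n K hn hX hK1 hK
    have hn0 : n₀ ≤ n := (le_max_left _ _).trans hn
    have hn1 : 1 ≤ n := (le_max_right _ _).trans hn
    have hKpos : (0 : ℝ) < K := by linarith
    rcases le_total Q₀ K with hQK | hQK
    · obtain ⟨-, hnc, E, hE, h1⟩ := h X n K Q₀ hn0 hX hQ₀1 hQK hK
      refine ⟨E, hE.trans ?_, ?_⟩
      · have hQpos : (0 : ℝ) < Q₀ := by linarith
        apply pow_le_pow_left₀ (by positivity)
        rw [div_le_iff₀ hQpos]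
        have h3 : C / ε ≤ Q₀ := le_max_right _ _
        have h4 : C ≤ ε * Q₀ := by
          rw [div_le_iff₀ hε] at h3
          linarith
        nlinarith
      · intro A hAX hAn hAA hAE
        obtain ⟨G, hGX, hG1, hG2, hG3⟩ := h1 A hAX hAn hAA hAE
        have hG0 : G.Nonempty := by
          rw [nonempty_iff_ne_empty]
          rintro rfl
          rw [sdiff_empty, hAn] at hG1
          have : (1 : ℝ) ≤ n := by exact_mod_cast hn1
          linarith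
        exact nearly_of htf A G Q₀ D _ hG0 hQ₀1 hG1 hG2 hG3 hD1 hD2
    · refine ⟨∅, ?_, ?_⟩
      · simp only [card_empty, Nat.cast_zero]
        positivity
      · intro A hAX hAn hAA _
        have hn' : (0 : ℝ) ≤ n := Nat.cast_nonneg n
        have hA0 : A.Nonempty := card_pos.1 (by omega)
        have hG3 : ((A + A).card : ℝ) ≤ 2 * Q₀ ^ 3 * A.card := by
          rw [hAn]
          refine hAA.trans ?_
          have h3 : K ≤ 2 * Q₀ ^ 3 := by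
            have : Q₀ ≤ 2 * Q₀ ^ 3 := by nlinarith [sq_nonneg (Q₀ - 1), sq_nonneg Q₀]
            linarith
          exact mul_le_mul_of_nonneg_right h3 hn'
        have hG2 : 97 * A.card ≤ 100 * (A + A).card := by
          have : A.card ≤ (A + A).card := Finset.card_le_card_add_right hA0
          omega
        refine nearly_of htf A A Q₀ D _ hA0 hQ₀1 ?_ hG2 hG3 hD1 hD2
        simp only [sdiff_self, bot_eq_empty, card_empty, Nat.cast_zero]
        positivity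
  · intro Γ _ _ X P n K hn hPX hnP hPK
    exact Pool.Agent.N31.SPC.Lowg.t_LOWG X P n K hn hPX hnP hPK

end Pool.Agent.Results.MP_86f7a7_co.AlmostAllSets
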